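import Pool.Agent.Y356.EA.Par

/-!
# Choice of the parameters for a given number of edges
-/

set_option autoImplicit false

namespace Pool.Agent.Y356.EA

open Pool.Agent.Helper120.Ea

theorem exists_par (x : ℝ) (hx : 10 ^ 6 ≤ x) (hxy : 10 ^ 6 * Real.log x ≤ x) (m : ℕ)
    (hm : 0 < m) (hmx : Real.log m = x) :
    ∃ u L : ℕ, BM u (1000 * L + 3) L m ∧
      1 / 10 ^ 8 * (x ^ 2 / Real.log x) ≤ 80 * (L * ((L : ℝ) - 1) * Real.log u) := by
  have hx0 : (0 : ℝ) < x := by linarith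
  obtain ⟨y, hy⟩ : ∃ y, y = Real.log x := ⟨_, rfl⟩
  have hy1 : 1 ≤ y := by
    rw [hy, Real.le_log_iff_exp_le hx0]
    linarith [Real.exp_one_lt_d9]
  rw [← hy] at hxy ⊢
  have hyx : y ≤ x := by rw [hy]; exact Real.log_le_self hx0.le
  have h5y : (0 : ℝ) < 10 ^ 5 * y := by positivity
  obtain ⟨L, hLdef⟩ : ∃ L : ℕ, L = ⌊x / (10 ^ 5 * y)⌋₊ := ⟨_, rfl⟩
  have hL1 : (L : ℝ) * (10 ^ 5 * y) ≤ x := by
    have h1 : (L : ℝ) ≤ x / (10 ^ 5 * y) := by
      rw [hLdef]; exact Nat.floor_le (by positivity)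
    rwa [le_div_iff₀ h5y] at h1
  have hL2 : x < ((L : ℝ) + 1) * (10 ^ 5 * y) := by
    have h1 : x / (10 ^ 5 * y) < (L : ℝ) + 1 := by
      rw [hLdef]; exact Nat.lt_floor_add_one _
    rwa [div_lt_iff₀ h5y] at h1
  have hL9 : (9 : ℝ) < L := by
    by_contra hcon
    push Not at hcon
    have : ((L : ℝ) + 1) * (10 ^ 5 * y) ≤ 10 * (10 ^ 5 * y) :=
      mul_le_mul_of_nonneg_right (by linarith) h5y.le
    linarith
  have hL10 : 10 ≤ L := by
    have : 9 < L := by exact_mod_cast hL9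
    omega
  have hL10R : (10 : ℝ) ≤ L := by exact_mod_cast hL10
  have hL3 : x ≤ 11 / 10 * L * (10 ^ 5 * y) := by
    refine hL2.le.trans ?_
    exact mul_le_mul_of_nonneg_right (by linarith) h5y.le
  have hLx : (L : ℝ) ≤ x / 10 ^ 5 := by
    rw [le_div_iff₀ (by norm_num)]
    nlinarith
  obtain ⟨E, hE⟩ : ∃ E : ℕ, E = 10 * (1000 * L + 3) + 19 := ⟨_, rfl⟩
  have hER : (E : ℝ) = 10000 * L + 49 := by
    rw [hE]; push_cast; ring
  have hE0 : (0 : ℝ) < E := by rw [hER]; positivity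
  have hE1 : (E : ℝ) ≤ 10005 * L := by rw [hER]; linarith
  have hE2 : 10000 * (L : ℝ) ≤ E := by rw [hER]; linarith
  obtain ⟨z, hz⟩ : ∃ z, z = x / E := ⟨_, rfl⟩
  have hzE : (E : ℝ) * z = x := by rw [hz]; field_simp
  have hz9 : 9 * y ≤ z := by
    rw [hz, le_div_iff₀ hE0]
    calc 9 * y * E ≤ 9 * y * (10005 * L) := mul_le_mul_of_nonneg_left hE1 (by positivity)
      _ = (90045 / 10 ^ 5) * (L * (10 ^ 5 * y)) := by ring
      _ ≤ 1 * x := by
          refine mul_le_mul (by norm_num) hL1 (by positivity) (by norm_num)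
      _ = x := one_mul x
  have hz11 : z ≤ 11 * y := by
    rw [hz, div_le_iff₀ hE0]
    calc x ≤ 11 / 10 * L * (10 ^ 5 * y) := hL3
      _ = 11 * y * (10000 * L) := by ring
      _ ≤ 11 * y * E := mul_le_mul_of_nonneg_left hE2 (by positivity)
  obtain ⟨u, hu⟩ : ∃ u : ℕ, u = ⌊Real.exp z⌋₊ := ⟨_, rfl⟩
  have hu1 : (u : ℝ) ≤ Real.exp z := by rw [hu]; exact Nat.floor_le (Real.exp_pos z).le
  have hu2 : Real.exp z < (u : ℝ) + 1 := by rw [hu]; exact Nat.lt_floor_add_one _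
  have hx9 : x ^ 9 ≤ Real.exp z := by
    calc x ^ 9 = Real.exp (Real.log x) ^ 9 := by rw [Real.exp_log hx0]
      _ = Real.exp (9 * y) := by rw [← Real.exp_nat_mul, hy]; norm_num
      _ ≤ Real.exp z := Real.exp_le_exp.2 hz9
  have hx8 : x ^ 8 ≤ u := by
    have h1 : x ^ 8 + 1 ≤ x ^ 9 := by
      have h2 : 1 ≤ x ^ 8 := one_le_pow₀ (by linarith)
      have h3 : x ^ 9 = x ^ 8 * x := by ring
      nlinarith
    linarith
  have hxx8 : x ≤ x ^ 8 := le_self_pow₀ (by linarith) (by norm_num)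
  have hux : x ≤ u := hxx8.trans hx8
  have hu100 : (100 : ℝ) ≤ u := by linarith
  have hu0 : (0 : ℝ) < u := by linarith
  have hlogu : Real.log u ≤ z := by
    rw [Real.log_le_iff_le_exp hu0]; exact hu1
  have hlogu2 : z / 2 ≤ Real.log u := by
    have h1 : Real.exp z / 2 ≤ u := by linarith
    have h2 : Real.log (Real.exp z / 2) ≤ Real.log u :=
      Real.log_le_log (by positivity) h1
    rw [Real.log_div (Real.exp_pos z).ne' (by norm_num), Real.log_exp] at h2
    have h3 := Real.log_two_lt_d9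
    linarith
  have hlogu0 : 0 ≤ Real.log u := Real.log_nonneg (by linarith)
  have hmR : (0 : ℝ) < m := by exact_mod_cast hm
  have hmexp : (m : ℝ) = Real.exp x := by rw [← hmx, Real.exp_log hmR]
  refine ⟨u, L, ⟨⟨?_, ?_, rfl, by omega, ?_⟩, ?_, ?_⟩, ?_⟩
  · exact_mod_cast hu100
  · have : (L : ℝ) ≤ u := by
      refine le_trans hLx (le_trans ?_ hux)
      rw [div_le_iff₀ (by norm_num)]
      linarith
    exact_mod_cast this
  · have h1 : (((1000 * L + 3 : ℕ)) : ℝ) ≤ x := by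
      push_cast
      have : 1000 * (L : ℝ) ≤ x / 100 := by linarith
      linarith
    have h2 : 1 + Real.log u ≤ 12 * x := by linarith
    calc (10 : ℝ) ^ 8 * (((1000 * L + 3 : ℕ)) : ℝ) ^ 3 * (1 + Real.log u) ^ 3
        ≤ 10 ^ 8 * x ^ 3 * (12 * x) ^ 3 := by
          have h3 : (((1000 * L + 3 : ℕ)) : ℝ) ^ 3 ≤ x ^ 3 :=
            pow_le_pow_left₀ (by positivity) h1 3
          have h4 : (1 + Real.log u) ^ 3 ≤ (12 * x) ^ 3 :=
            pow_le_pow_left₀ (by linarith) h2 3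
          refine mul_le_mul (mul_le_mul_of_nonneg_left h3 (by norm_num)) h4 (by positivity)
            (by positivity)
      _ = (10 ^ 8 * 1728) * x ^ 6 := by ring
      _ ≤ x ^ 2 * x ^ 6 := by
          refine mul_le_mul_of_nonneg_right ?_ (by positivity)
          nlinarith
      _ = x ^ 8 := by ring
      _ ≤ u := hx8
  · rw [← hE, hmexp]
    calc (u : ℝ) ^ E ≤ Real.exp z ^ E := pow_le_pow_left₀ hu0.le hu1 E
      _ = Real.exp x := by rw [← Real.exp_nat_mul, hzE]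
  · rw [← hE, hmexp]
    have h1 : Real.exp x ≤ ((u : ℝ) + 1) ^ E := by
      calc Real.exp x = Real.exp z ^ E := by rw [← Real.exp_nat_mul, hzE]
        _ ≤ ((u : ℝ) + 1) ^ E := pow_le_pow_left₀ (Real.exp_pos z).le hu2.le E
    refine h1.trans ?_
    have h2 : ((u : ℝ) + 1) ^ E = (1 / u + 1) ^ E * (u : ℝ) ^ E := by
      rw [← mul_pow]
      congr 1
      field_simp
      ring
    rw [h2]
    refine mul_le_mul_of_nonneg_right ?_ (by positivity)
    have h3 : 1 / (u : ℝ) + 1 ≤ Real.exp (1 / u) := Real.add_one_le_exp _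
    have h4 : (1 / (u : ℝ) + 1) ^ E ≤ Real.exp (1 / u) ^ E :=
      pow_le_pow_left₀ (by positivity) h3 E
    refine h4.trans ?_
    rw [← Real.exp_nat_mul]
    have h5 : (E : ℝ) * (1 / u) ≤ 1 / 2 := by
      rw [mul_one_div, div_le_div_iff₀ hu0 (by norm_num)]
      have : (E : ℝ) ≤ x / 2 := by
        refine hE1.trans ?_
        linarith
      linarith
    have h6 : Real.exp ((E : ℝ) * (1 / u)) ≤ Real.exp (1 / 2) := Real.exp_le_exp.2 h5
    refine h6.trans ?_
    have h7 : Real.exp (1 / 2) ^ 2 ≤ 2 ^ 2 := by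
      rw [← Real.exp_nat_mul]
      norm_num
      linarith [Real.exp_one_lt_d9]
    exact le_of_sq_le_sq h7 (by norm_num)
  · have hLL : 9 / 10 * (L : ℝ) ≤ L - 1 := by linarith
    have h1 : 36 * (L : ℝ) ^ 2 * z ≤ 80 * (L * ((L : ℝ) - 1) * Real.log u) := by
      have h2 : (L : ℝ) * (9 / 10 * L) ≤ L * ((L : ℝ) - 1) :=
        mul_le_mul_of_nonneg_left hLL (by linarith)
      have hz0 : 0 ≤ z := by linarith
      have h3 : (L : ℝ) * (9 / 10 * L) * (z / 2) ≤ L * ((L : ℝ) - 1) * Real.log u :=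
        mul_le_mul h2 hlogu2 (by linarith) (by nlinarith)
      nlinarith
    refine le_trans ?_ h1
    have h4 : x ≤ 10005 * (L * z) := by
      have hz0 : 0 ≤ z := by linarith
      calc x = (E : ℝ) * z := hzE.symm
        _ ≤ (10005 * L) * z := mul_le_mul_of_nonneg_right hE1 hz0
        _ = _ := by ring
    have hy0 : 0 < y := by linarith
    rw [← mul_div_assoc, div_le_iff₀ hy0]
    calc 1 / 10 ^ 8 * x ^ 2 = 1 / 10 ^ 8 * (x * x) := by ring
      _ ≤ 1 / 10 ^ 8 * ((11 / 10 * L * (10 ^ 5 * y)) * (10005 * (L * z))) := by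
          refine mul_le_mul_of_nonneg_left ?_ (by norm_num)
          exact mul_le_mul hL3 h4 hx0.le (by positivity)
      _ = (11 / 10 * 10 ^ 5 * 10005 / 10 ^ 8) * ((L : ℝ) ^ 2 * z * y) := by ring
      _ ≤ 36 * ((L : ℝ) ^ 2 * z * y) := by
          refine mul_le_mul_of_nonneg_right (by norm_num) ?_
          have hz0 : 0 ≤ z := by linarith
          positivity
      _ = _ := by ring

end Pool.Agent.Y356.EA
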