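import Pool.Agent.Y356.EA.Choice

/-!
# The lower bound for the runtime, for all large numbers of edges
-/

set_option autoImplicit false

open Finset MeasureTheory ProbabilityTheory
open scoped ENNReal

namespace Pool.Agent.Y356.EA

open Pool.Agent.Helper120.Ea Pool.Agent.Helper120.EaModel

section mainpart
open Classical

theorem main_m {u k0 L m : ℕ} (h : BM u k0 L m) :
    ∃ (V E : Type) (_ : Fintype V) (_ : Fintype E) (_ : DecidableEq E) (G : WGraph V E)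
      (x0 : Finset E), (G.subgraph Finset.univ).Connected ∧ G.IsSpanningTree x0 ∧
      Fintype.card E = m ∧
      ENNReal.ofReal ((m : ℝ) ^ 2 * (80 * (L * ((L : ℝ) - 1) * Real.log u))) ≤
        G.expectedRuntime x0 := by
  have hbig := h.big
  have hL5 := hbig.hL
  have hcardle := par_card hbig
  have hlo : u ^ (10 * k0 + 19) ≤ m := by exact_mod_cast h.lo
  obtain ⟨P, hP⟩ : ∃ P, P + (L + L * (u ^ (10 * k0 + 5) * u ^ 4)) +
      L * (u ^ (10 * k0 + 5) * (u ^ 4 + 2)) = m :=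
    ⟨m - (L + L * (u ^ (10 * k0 + 5) * u ^ 4) +
      L * (u ^ (10 * k0 + 5) * (u ^ 4 + 2))), by omega⟩
  have hcard : Fintype.card (Ex P L (u ^ (10 * k0 + 5)) (u ^ 4)) = m := by
    rw [card_Ex]; exact hP
  have hcardR : (m : ℝ) = (Fintype.card (Ex P L (u ^ (10 * k0 + 5)) (u ^ 4)) : ℝ) := by
    rw [hcard]
  obtain ⟨hr1, hl03, hd0, hd4, hH1, hm2', hM2, hbg', hratio⟩ := par_easy hbig
  have hm2 : (2 : ℝ) ≤ m := hm2'.trans h.lo
  have hbg := hbg'.trans h.lo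
  have hDD := DD_le hbig
  have hH0 : (0 : ℝ) ≤ (u : ℝ) ^ (k0 - 2) / 2 := by linarith
  have hu1 : 1 ≤ u := by have := hbig.hu; omega
  have hM0 : 0 < u ^ (10 * k0 + 5) := by positivity
  have hB := blk_hyp (M := u ^ (10 * k0 + 5)) (r := u ^ 4) (l0 := u ^ 5)
    (d := 1 / (u : ℝ) ^ 2) (H := (u : ℝ) ^ (k0 - 2) / 2) (m := (m : ℝ))
    hr1 hl03 hd0 hd4 hH0 hm2 hM2 hbg (par_m3' h) (par_C1' h) (par_C2 hbig)
    (fun l hl => par_psi hbig l hl) (par_MD' h)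
  have hn4 := n4_le h
  obtain ⟨hp0, -, hp1, -, -⟩ := pp_bd h
  obtain ⟨α, β, hF, hαβ⟩ := fn_hyp (M := u ^ (10 * k0 + 5)) (L := L) (n3 := n4 u k0 m)
    (m := (m : ℝ)) (H := (u : ℝ) ^ (k0 - 2) / 2) (p := pp u k0 m)
    (R := ((((u ^ 4 : ℕ) : ℝ) + 1) / (24 * Real.log (2 * ((u ^ (10 * k0 + 5) : ℕ) : ℝ)))) /
      (m : ℝ) ^ 2)
    (by linarith) hH1 hp0 hp1
    (by
      have := (logM_le hbig).1
      positivity)
    hn4.1 hn4.2.2.1 (par_h1' h) (par_h2' h)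
    (par_h3' h) (par_h4' h) (par_h5' h) (par_h6' h) (par_h7' h) (par_h8' h)
    (par_h9' h)
  have hlow := lower (P := P) (L := L) hcardR hM0 hm2 hr1 hB hF
  rw [start_value (by omega) hr1 hM0] at hlow
  refine ⟨Vx P L (u ^ (10 * k0 + 5)) (u ^ 4), Ex P L (u ^ (10 * k0 + 5)) (u ^ 4), inferInstance,
    inferInstance, inferInstance, theG P L (u ^ (10 * k0 + 5)) (u ^ 4),
    xstart P L (u ^ (10 * k0 + 5)) (u ^ 4), gr_univ_connected hM0, xstart_tree hr1, hcard, ?_⟩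
  refine le_trans (ENNReal.ofReal_le_ofReal ?_) hlow
  have hfin := par_final' h
  have hαn := hF.α_nonneg (u ^ (10 * k0 + 5))
  have hg0 : (0 : ℝ) ≤ Real.log (1 + ((u ^ (10 * k0 + 5) : ℕ) : ℝ)) :=
    Real.log_nonneg (by
      have : (0 : ℝ) ≤ ((u ^ (10 * k0 + 5) : ℕ) : ℝ) := Nat.cast_nonneg _
      linarith)
  have hL1 : (0 : ℝ) ≤ (L : ℝ) - 1 := by
    have : (5 : ℝ) ≤ L := by exact_mod_cast hL5
    linarith
  have h1 : Real.log ((u : ℝ) ^ (k0 - 2) / 2) / 4 - (217 + 8 * Real.log (n4 u k0 m)) ≤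
      max 0 (Real.log ((u : ℝ) ^ (k0 - 2) / 2) / 4 -
        (α (u ^ (10 * k0 + 5)) * DD ((u : ℝ) ^ (k0 - 2) / 2) 0 + β (u ^ (10 * k0 + 5)))) := by
    refine le_trans ?_ (le_max_right _ _)
    nlinarith
  refine hfin.trans ?_
  apply mul_le_mul_of_nonneg_left _ (by positivity)
  have := mul_le_mul_of_nonneg_left h1 hL1
  linarith

end mainpart

/-- **The lower bound.** -/
theorem growth : ∃ m0 : ℕ, ∀ m : ℕ, m0 ≤ m →
    ∃ (V E : Type) (_ : Fintype V) (_ : Fintype E) (_ : DecidableEq E) (G : WGraph V E)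
      (x0 : Finset E), (G.subgraph Finset.univ).Connected ∧ G.IsSpanningTree x0 ∧
      Fintype.card E = m ∧
      ENNReal.ofReal (1 / 10 ^ 8 * (m : ℝ) ^ 2 * (Real.log m ^ 2 / Real.log (Real.log m))) ≤
        G.expectedRuntime x0 := by
  have h1 : ∀ᶠ x : ℝ in Filter.atTop, 10 ^ 6 * Real.log x ≤ x := by
    have h2 := Real.isLittleO_log_id_atTop.def (c := 1 / 10 ^ 6) (by norm_num)
    filter_upwards [h2, Filter.eventually_ge_atTop (1 : ℝ)] with x hx hx1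
    rw [Real.norm_of_nonneg (Real.log_nonneg hx1), id, Real.norm_of_nonneg (by linarith)] at hx
    linarith
  have h3 : Filter.Tendsto (fun m : ℕ => Real.log (m : ℝ)) Filter.atTop Filter.atTop :=
    Real.tendsto_log_atTop.comp tendsto_natCast_atTop_atTop
  obtain ⟨m0, hm0⟩ := Filter.eventually_atTop.1
    (((h3.eventually h1).and (h3.eventually (Filter.eventually_ge_atTop (10 ^ 6 : ℝ)))).and
      (Filter.eventually_ge_atTop 1))
  refine ⟨m0, fun m hm => ?_⟩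
  obtain ⟨⟨ha, hb⟩, hc⟩ := hm0 m hm
  obtain ⟨u, L, hBM, hfin⟩ := exists_par (Real.log m) hb ha m (by omega) rfl
  obtain ⟨V, E, iV, iE, iD, G, x0, hG1, hG2, hG3, hG4⟩ := main_m hBM
  refine ⟨V, E, iV, iE, iD, G, x0, hG1, hG2, hG3, le_trans (ENNReal.ofReal_le_ofReal ?_) hG4⟩
  have hm2 : (0 : ℝ) ≤ (m : ℝ) ^ 2 := by positivity
  calc 1 / 10 ^ 8 * (m : ℝ) ^ 2 * (Real.log m ^ 2 / Real.log (Real.log m))
      = (m : ℝ) ^ 2 * (1 / 10 ^ 8 * (Real.log m ^ 2 / Real.log (Real.log m))) := by ring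
    _ ≤ _ := mul_le_mul_of_nonneg_left hfin hm2

end Pool.Agent.Y356.EA
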