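import Pool.Agent.Helper120.Ea.Main

/-!
# Parameters for the lower bound on the runtime of the (1+1) EA, for all numbers of edges

The number of edges `m` ranges over an interval from `u ^ (10 k0 + 19)` to twice this number.
-/

set_option autoImplicit false

open Finset

namespace Pool.Agent.Y356.EA

open Pool.Agent.Helper120.Ea

/-- `u` is large and `m` is between `u ^ (10 k0 + 19)` and twice this number -/
structure BM (u k0 L : ℕ) (m : ℝ) : Prop where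
  big : Big u k0 L
  lo : (u : ℝ) ^ (10 * k0 + 19) ≤ m
  hi : m ≤ 2 * (u : ℝ) ^ (10 * k0 + 19)

/-- the probability scale `M ^ 2 / m ^ 2` -/
noncomputable def pp (u k0 : ℕ) (m : ℝ) : ℝ := ((u ^ (10 * k0 + 5) : ℕ) : ℝ) ^ 2 / m ^ 2

variable {u k0 L : ℕ} {m : ℝ}

theorem E_eq (u k0 : ℕ) : (u : ℝ) ^ (10 * k0 + 19) =
    ((u ^ (10 * k0 + 5) : ℕ) : ℝ) * (u : ℝ) ^ 14 := by
  push_cast
  rw [← pow_add]

theorem basics (h : BM u k0 L m) :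
    (0 : ℝ) < u ∧ (0 : ℝ) < ((u ^ (10 * k0 + 5) : ℕ) : ℝ) ∧ 0 < m ∧
      ((u ^ (10 * k0 + 5) : ℕ) : ℝ) * (u : ℝ) ^ 14 ≤ m ∧
      m ≤ 2 * (((u ^ (10 * k0 + 5) : ℕ) : ℝ) * (u : ℝ) ^ 14) := by
  have hU := h.big.U100
  have h1 := h.lo
  have h2 := h.hi
  rw [E_eq] at h1 h2
  have hM : (0 : ℝ) < ((u ^ (10 * k0 + 5) : ℕ) : ℝ) := by
    push_cast
    positivity
  have h3 : 0 < ((u ^ (10 * k0 + 5) : ℕ) : ℝ) * (u : ℝ) ^ 14 := by positivity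
  exact ⟨by linarith, hM, by linarith, h1, h2⟩

theorem pp_bd (h : BM u k0 L m) :
    0 < pp u k0 m ∧ pp u k0 m ≤ 1 / (u : ℝ) ^ 28 ∧ pp u k0 m ≤ 1 ∧
      m ^ 2 / ((u ^ (10 * k0 + 5) : ℕ) : ℝ) ^ 2 ≤ 4 * (u : ℝ) ^ 28 ∧
      1 ≤ m ^ 2 / ((u ^ (10 * k0 + 5) : ℕ) : ℝ) ^ 2 := by
  obtain ⟨hU, hM, hm, h1, h2⟩ := basics h
  have hU1 : (1 : ℝ) ≤ u := by linarith [h.big.U100]
  have hU28 : 1 ≤ (u : ℝ) ^ 28 := one_le_pow₀ hU1
  have e1 : (((u ^ (10 * k0 + 5) : ℕ) : ℝ) * (u : ℝ) ^ 14) ^ 2 ≤ m ^ 2 :=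
    pow_le_pow_left₀ (by positivity) h1 2
  have e2 : m ^ 2 ≤ (2 * (((u ^ (10 * k0 + 5) : ℕ) : ℝ) * (u : ℝ) ^ 14)) ^ 2 :=
    pow_le_pow_left₀ hm.le h2 2
  have e3 : pp u k0 m ≤ 1 / (u : ℝ) ^ 28 := by
    unfold pp
    rw [div_le_div_iff₀ (by positivity) (by positivity)]
    calc ((u ^ (10 * k0 + 5) : ℕ) : ℝ) ^ 2 * (u : ℝ) ^ 28
        = (((u ^ (10 * k0 + 5) : ℕ) : ℝ) * (u : ℝ) ^ 14) ^ 2 := by ring
      _ ≤ 1 * m ^ 2 := by rw [one_mul]; exact e1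
  refine ⟨by unfold pp; positivity, e3, ?_, ?_, ?_⟩
  · refine e3.trans ?_
    rw [div_le_one (by positivity)]
    exact hU28
  · rw [div_le_iff₀ (by positivity)]
    calc m ^ 2 ≤ (2 * (((u ^ (10 * k0 + 5) : ℕ) : ℝ) * (u : ℝ) ^ 14)) ^ 2 := e2
      _ = 4 * (u : ℝ) ^ 28 * ((u ^ (10 * k0 + 5) : ℕ) : ℝ) ^ 2 := by ring
  · rw [le_div_iff₀ (by positivity), one_mul]
    refine le_trans ?_ e1
    rw [mul_pow]
    refine le_mul_of_one_le_right (by positivity) ?_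
    exact one_le_pow₀ (one_le_pow₀ hU1)

theorem par_m3' (h : BM u k0 L m) :
    ((((u ^ 4 : ℕ) : ℝ) + 2) * ((u ^ (10 * k0 + 5) : ℕ) : ℝ) / m) ^ 3 *
      (DD ((u : ℝ) ^ (k0 - 2) / 2) 0 + 1) ≤ ((u ^ (10 * k0 + 5) : ℕ) : ℝ) ^ 2 / m ^ 2 := by
  have h0 := par_m3 h.big
  obtain ⟨hU, hM, hm, h1, h2⟩ := basics h
  obtain ⟨hD0, hD1⟩ := DD_le h.big
  have hE : (0 : ℝ) < (u : ℝ) ^ (10 * k0 + 19) := by positivity
  have hlo := h.lo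
  obtain ⟨A, hA⟩ : ∃ A, A = (((u ^ 4 : ℕ) : ℝ) + 2) * ((u ^ (10 * k0 + 5) : ℕ) : ℝ) := ⟨_, rfl⟩
  obtain ⟨D, hD⟩ : ∃ D, D = DD ((u : ℝ) ^ (k0 - 2) / 2) 0 + 1 := ⟨_, rfl⟩
  obtain ⟨N, hN⟩ : ∃ N, N = ((u ^ (10 * k0 + 5) : ℕ) : ℝ) := ⟨_, rfl⟩
  rw [← hA, ← hD, ← hN, div_pow, div_mul_eq_mul_div] at h0 ⊢
  rw [div_le_div_iff₀ (by positivity) (by positivity)] at h0 ⊢
  have h3 : A ^ 3 * D ≤ N ^ 2 * (u : ℝ) ^ (10 * k0 + 19) := by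
    have h4 : A ^ 3 * D * ((u : ℝ) ^ (10 * k0 + 19)) ^ 2 ≤
        (N ^ 2 * (u : ℝ) ^ (10 * k0 + 19)) * ((u : ℝ) ^ (10 * k0 + 19)) ^ 2 := by
      calc _ ≤ N ^ 2 * ((u : ℝ) ^ (10 * k0 + 19)) ^ 3 := h0
        _ = _ := by ring
    exact le_of_mul_le_mul_right h4 (by positivity)
  calc A ^ 3 * D * m ^ 2 ≤ (N ^ 2 * (u : ℝ) ^ (10 * k0 + 19)) * m ^ 2 :=
        mul_le_mul_of_nonneg_right h3 (by positivity)
    _ ≤ (N ^ 2 * m) * m ^ 2 := by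
        refine mul_le_mul_of_nonneg_right ?_ (by positivity)
        exact mul_le_mul_of_nonneg_left hlo (by positivity)
    _ = N ^ 2 * m ^ 3 := by ring

theorem par_C1' (h : BM u k0 L m) :
    DD ((u : ℝ) ^ (k0 - 2) / 2) 0 * (12 * (((u ^ 4 : ℕ) : ℝ) + 2) / ((u ^ 5 : ℕ) : ℝ) +
      8 * (1 / (u : ℝ) ^ 2) +
      6 * (((u ^ 4 : ℕ) : ℝ) + 2) * ((u ^ (10 * k0 + 5) : ℕ) : ℝ) / m) ≤
      1 / (48 * Real.log (2 * ((u ^ (10 * k0 + 5) : ℕ) : ℝ))) := by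
  have h0 := par_C1 h.big
  obtain ⟨hU, hM, hm, h1, h2⟩ := basics h
  obtain ⟨hD0, hD1⟩ := DD_le h.big
  have hlo := h.lo
  refine le_trans (mul_le_mul_of_nonneg_left ?_ hD0) h0
  have : 6 * (((u ^ 4 : ℕ) : ℝ) + 2) * ((u ^ (10 * k0 + 5) : ℕ) : ℝ) / m ≤
      6 * (((u ^ 4 : ℕ) : ℝ) + 2) * ((u ^ (10 * k0 + 5) : ℕ) : ℝ) / (u : ℝ) ^ (10 * k0 + 19) :=
    div_le_div_of_nonneg_left (by positivity) (by positivity) hlo
  linarith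

theorem par_MD' (h : BM u k0 L m) :
    ((u ^ (10 * k0 + 5) : ℕ) : ℝ) ^ 2 * DD ((u : ℝ) ^ (k0 - 2) / 2) 0 ≤ m ^ 2 := by
  have h0 := par_MD h.big
  refine h0.trans ?_
  have hU := h.big.U100
  exact pow_le_pow_left₀ (by positivity) h.lo 2

/-- number of levels with decreasing influence -/
noncomputable def n4 (u k0 : ℕ) (m : ℝ) : ℕ :=
  ⌈48 * (m ^ 2 / ((u ^ (10 * k0 + 5) : ℕ) : ℝ) ^ 2) * Real.log ((u ^ (10 * k0 + 5) : ℕ) : ℝ)⌉₊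

theorem n4_le (h : BM u k0 L m) :
    1 ≤ n4 u k0 m ∧ n4 u k0 m ≤ u ^ 29 ∧ n4 u k0 m ≤ u ^ (10 * k0 + 5) ∧
      Real.log (n4 u k0 m) ≤ 29 * Real.log u ∧
      (n4 u k0 m : ℝ) * pp u k0 m ≤ 49 * (11 * k0 * Real.log u) := by
  obtain ⟨hU, hl, hK, h1, h2⟩ := big_basic h.big
  obtain ⟨hm1, hm2⟩ := logM_bd h.big
  obtain ⟨hp0, hp1, hp2, hp3, hp4⟩ := pp_bd h
  obtain ⟨hU0, hM, hm, h3, h4⟩ := basics h
  have hU28 : 1 ≤ (u : ℝ) ^ 28 := one_le_pow₀ (by linarith)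
  have hkl : (1 : ℝ) ≤ (k0 : ℝ) * Real.log u := by nlinarith
  have a1 : 1 ≤ n4 u k0 m := by
    unfold n4
    rw [Nat.one_le_ceil_iff]
    positivity
  have a2 : n4 u k0 m ≤ u ^ 29 := by
    unfold n4
    rw [Nat.ceil_le]
    calc 48 * (m ^ 2 / ((u ^ (10 * k0 + 5) : ℕ) : ℝ) ^ 2) *
          Real.log ((u ^ (10 * k0 + 5) : ℕ) : ℝ)
        ≤ 48 * (4 * (u : ℝ) ^ 28) * Real.log ((u ^ (10 * k0 + 5) : ℕ) : ℝ) := by
          refine mul_le_mul_of_nonneg_right ?_ (by linarith)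
          exact mul_le_mul_of_nonneg_left hp3 (by norm_num)
      _ = (u : ℝ) ^ 28 * (192 * Real.log ((u ^ (10 * k0 + 5) : ℕ) : ℝ)) := by ring
      _ ≤ (u : ℝ) ^ 28 * u := by
          refine mul_le_mul_of_nonneg_left ?_ (by positivity)
          linarith
      _ = ((u ^ 29 : ℕ) : ℝ) := by push_cast; ring
  have a3 : n4 u k0 m ≤ u ^ (10 * k0 + 5) :=
    a2.trans (Nat.pow_le_pow_right (by have := h.big.hu; omega)
      (by have := h.big.hk; have := h.big.hL; omega))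
  have a2' : (n4 u k0 m : ℝ) ≤ (u : ℝ) ^ 29 := by exact_mod_cast a2
  have a1' : (1 : ℝ) ≤ (n4 u k0 m : ℝ) := by exact_mod_cast a1
  refine ⟨a1, a2, a3, ?_, ?_⟩
  · have := Real.log_le_log (by linarith) a2'
    rw [Real.log_pow] at this
    exact_mod_cast this
  · have h5 : (n4 u k0 m : ℝ) < 48 * (m ^ 2 / ((u ^ (10 * k0 + 5) : ℕ) : ℝ) ^ 2) *
        Real.log ((u ^ (10 * k0 + 5) : ℕ) : ℝ) + 1 := by
      unfold n4
      apply Nat.ceil_lt_add_one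
      positivity
    have h6 : m ^ 2 / ((u ^ (10 * k0 + 5) : ℕ) : ℝ) ^ 2 * pp u k0 m = 1 := by
      unfold pp
      field_simp
    calc (n4 u k0 m : ℝ) * pp u k0 m
        ≤ (48 * (m ^ 2 / ((u ^ (10 * k0 + 5) : ℕ) : ℝ) ^ 2) *
          Real.log ((u ^ (10 * k0 + 5) : ℕ) : ℝ) + 1) * pp u k0 m :=
          mul_le_mul_of_nonneg_right h5.le hp0.le
      _ = 48 * Real.log ((u ^ (10 * k0 + 5) : ℕ) : ℝ) *
          (m ^ 2 / ((u ^ (10 * k0 + 5) : ℕ) : ℝ) ^ 2 * pp u k0 m) + pp u k0 m := by ring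
      _ = 48 * Real.log ((u ^ (10 * k0 + 5) : ℕ) : ℝ) + pp u k0 m := by rw [h6, mul_one]
      _ ≤ _ := by linarith

theorem pow_n4_le (h : BM u k0 L m) :
    (1 - pp u k0 m / 16) ^ (n4 u k0 m) ≤ 1 / ((u ^ (10 * k0 + 5) : ℕ) : ℝ) ^ 3 := by
  obtain ⟨hU, hl, hK, h1, h2⟩ := big_basic h.big
  obtain ⟨hp0, hp1, hp2, hp3, hp4⟩ := pp_bd h
  obtain ⟨hU0, hM0, hm, h3, h4⟩ := basics h
  have h3 : 1 - pp u k0 m / 16 ≤ Real.exp (-(pp u k0 m / 16)) := Real.one_sub_le_exp_neg _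
  have h4 : (1 - pp u k0 m / 16) ^ (n4 u k0 m) ≤ Real.exp (-(pp u k0 m / 16)) ^ (n4 u k0 m) :=
    pow_le_pow_left₀ (by linarith) h3 _
  refine h4.trans ?_
  rw [← Real.exp_nat_mul]
  obtain ⟨M, hMdef⟩ : ∃ M, M = ((u ^ (10 * k0 + 5) : ℕ) : ℝ) := ⟨_, rfl⟩
  rw [← hMdef] at hM0 ⊢
  have h5 : 1 / M ^ 3 = Real.exp (-(3 * Real.log M)) := by
    rw [Real.exp_neg, one_div]
    congr 1
    rw [show (3 : ℝ) * Real.log M = ((3 : ℕ) : ℝ) * Real.log M by norm_num, Real.exp_nat_mul,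
      Real.exp_log hM0]
  rw [h5]
  apply Real.exp_le_exp.2
  have h6 : 48 * (m ^ 2 / M ^ 2) * Real.log M ≤ (n4 u k0 m : ℝ) := by
    rw [hMdef]; unfold n4; exact Nat.le_ceil _
  have h8 : m ^ 2 / M ^ 2 * pp u k0 m = 1 := by
    unfold pp
    rw [hMdef] at hM0 ⊢
    field_simp
  have h7 : 48 * Real.log M ≤ (n4 u k0 m : ℝ) * pp u k0 m := by
    calc 48 * Real.log M = 48 * Real.log M * (m ^ 2 / M ^ 2 * pp u k0 m) := by rw [h8, mul_one]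
      _ = (48 * (m ^ 2 / M ^ 2) * Real.log M) * pp u k0 m := by ring
      _ ≤ _ := mul_le_mul_of_nonneg_right h6 hp0.le
  nlinarith

theorem q_nonneg' (h : BM u k0 L m) : 0 ≤ (1 - pp u k0 m / 16) ^ (n4 u k0 m) := by
  obtain ⟨hp0, hp1, hp2, hp3, hp4⟩ := pp_bd h
  apply pow_nonneg
  linarith

theorem par_h1' (h : BM u k0 L m) :
    (1 - pp u k0 m / 16) ^ (n4 u k0 m) * (DD ((u : ℝ) ^ (k0 - 2) / 2) 0 + 1) ≤ 1 := by
  obtain ⟨hU, hl, hK, h1, h2⟩ := big_basic h.big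
  have hq := pow_n4_le h
  have hq0 := q_nonneg' h
  obtain ⟨hD1, hD2⟩ := DDp1 h.big
  have hM := M_ge h.big
  set M : ℝ := ((u ^ (10 * k0 + 5) : ℕ) : ℝ) with hMdef
  have hM1 : 1 ≤ M := by linarith
  have hM3 : M ≤ M ^ 3 := le_self_pow₀ hM1 (by norm_num)
  calc _ ≤ 1 / M ^ 3 * (DD ((u : ℝ) ^ (k0 - 2) / 2) 0 + 1) :=
        mul_le_mul_of_nonneg_right hq (by linarith)
    _ ≤ 1 := by
        rw [one_div, inv_mul_le_iff₀ (by positivity)]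
        linarith

theorem par_h2' (h : BM u k0 L m) :
    4 * ((u ^ (10 * k0 + 5) : ℕ) : ℝ) * (1 - pp u k0 m / 16) ^ (n4 u k0 m) *
      (5 * pp u k0 m * (DD ((u : ℝ) ^ (k0 - 2) / 2) 0 + 1)) ≤ 1 := by
  obtain ⟨hU, hl, hK, h1, h2⟩ := big_basic h.big
  have hq := pow_n4_le h
  have hq0 := q_nonneg' h
  obtain ⟨hD1, hD2⟩ := DDp1 h.big
  obtain ⟨hp0, -, hp1, hp3, hp4⟩ := pp_bd h
  have hM := M_ge h.big
  set M : ℝ := ((u ^ (10 * k0 + 5) : ℕ) : ℝ) with hMdef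
  set D : ℝ := DD ((u : ℝ) ^ (k0 - 2) / 2) 0 + 1
  set p : ℝ := pp u k0 m
  have hM1 : 1 ≤ M := by linarith
  have hM2 : M ≤ M ^ 2 := le_self_pow₀ hM1 (by norm_num)
  have hpD : 5 * p * D ≤ 5 * D := by nlinarith
  calc 4 * M * (1 - p / 16) ^ (n4 u k0 m) * (5 * p * D)
      ≤ 4 * M * (1 / M ^ 3) * (5 * D) := by gcongr
    _ = (20 * D) / M ^ 2 := by field_simp; ring
    _ ≤ 1 := by
        rw [div_le_one (by positivity)]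
        linarith

theorem par_h3' (h : BM u k0 L m) :
    12 * pp u k0 m * ((u ^ (10 * k0 + 5) : ℕ) : ℝ) *
      (1 - pp u k0 m / 16) ^ (n4 u k0 m) ≤ 1 := by
  obtain ⟨hU, hl, hK, h1, h2⟩ := big_basic h.big
  have hq := pow_n4_le h
  have hq0 := q_nonneg' h
  obtain ⟨hp0, -, hp1, hp3, hp4⟩ := pp_bd h
  have hM := M_ge h.big
  set M : ℝ := ((u ^ (10 * k0 + 5) : ℕ) : ℝ) with hMdef
  set p : ℝ := pp u k0 m
  have hM1 : 1 ≤ M := by linarith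
  have hM2 : M ≤ M ^ 2 := le_self_pow₀ hM1 (by norm_num)
  calc 12 * p * M * (1 - p / 16) ^ (n4 u k0 m)
      ≤ 12 * 1 * M * (1 / M ^ 3) := by gcongr
    _ = 12 / M ^ 2 := by field_simp
    _ ≤ 1 := by
        rw [div_le_one (by positivity)]
        linarith

theorem par_h4' (h : BM u k0 L m) :
    (1 - pp u k0 m / 16) ^ (n4 u k0 m) *
      (1 + Real.log ((u ^ (10 * k0 + 5) : ℕ) : ℝ)) ≤ 1 := by
  obtain ⟨hU, hl, hK, h1, h2⟩ := big_basic h.big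
  have hq := pow_n4_le h
  have hq0 := q_nonneg' h
  obtain ⟨hm1, hm2⟩ := logM_bd h.big
  have hM := M_ge h.big
  set M : ℝ := ((u ^ (10 * k0 + 5) : ℕ) : ℝ) with hMdef
  have hM1 : 1 ≤ M := by linarith
  have hM3 : M ≤ M ^ 3 := le_self_pow₀ hM1 (by norm_num)
  have hlog : Real.log M ≤ M - 1 := Real.log_le_sub_one_of_pos (by linarith)
  calc _ ≤ 1 / M ^ 3 * (1 + Real.log M) :=
        mul_le_mul_of_nonneg_right hq (by linarith)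
    _ ≤ 1 := by
        rw [one_div, inv_mul_le_iff₀ (by positivity)]
        linarith

theorem par_h5' (h : BM u k0 L m) :
    2 * (n4 u k0 m : ℝ) * (5 * pp u k0 m * (DD ((u : ℝ) ^ (k0 - 2) / 2) 0 + 1) +
      pp u k0 m / 16 * (DD ((u : ℝ) ^ (k0 - 2) / 2) 0 + 1)) ≤
    m ^ 2 * (((((u ^ 4 : ℕ) : ℝ) + 1) /
      (24 * Real.log (2 * ((u ^ (10 * k0 + 5) : ℕ) : ℝ)))) / m ^ 2) / 2 := by
  obtain ⟨hU, hl, hK, h1, h2⟩ := big_basic h.big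
  obtain ⟨hD1, hD2⟩ := DDp1 h.big
  obtain ⟨hp0, -, hp1, hp3, hp4⟩ := pp_bd h
  obtain ⟨hU0, hM0, hm, -, -⟩ := basics h
  obtain ⟨-, -, -, -, hn⟩ := n4_le h
  obtain ⟨hL0, hL1⟩ := logM_le h.big
  set Lg : ℝ := Real.log (2 * ((u ^ (10 * k0 + 5) : ℕ) : ℝ)) with hLg
  set D : ℝ := DD ((u : ℝ) ^ (k0 - 2) / 2) 0 + 1
  set p : ℝ := pp u k0 m
  set x : ℝ := (k0 : ℝ) * Real.log u with hx
  have hx1 : 1 ≤ x := by nlinarith
  have hm0 : m ^ 2 ≠ 0 := by positivity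
  rw [mul_div_cancel₀ _ hm0]
  have hU4 : (u : ℝ) ≤ (u : ℝ) ^ 4 := le_self_pow₀ (by linarith) (by norm_num)
  have e1 : 2 * (n4 u k0 m : ℝ) * (5 * p * D + p / 16 * D) =
      81 / 8 * ((n4 u k0 m : ℝ) * p) * D := by
    ring
  rw [e1]
  have h3 : (n4 u k0 m : ℝ) * p ≤ 539 * x := by rw [hx]; linarith
  have h4 : 81 / 8 * ((n4 u k0 m : ℝ) * p) * D ≤ 81 / 8 * (539 * x) * (2 * x) := by
    have : 0 ≤ (n4 u k0 m : ℝ) * p := by positivity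
    gcongr
  refine h4.trans ?_
  rw [div_div, le_div_iff₀ (by positivity)]
  have h5 : Lg ≤ 11 * x := by rw [hx]; linarith
  push_cast
  calc 81 / 8 * (539 * x) * (2 * x) * (24 * Lg * 2)
      ≤ 81 / 8 * (539 * x) * (2 * x) * (24 * (11 * x) * 2) := by gcongr
    _ = 5762988 * x ^ 3 := by ring
    _ ≤ (u : ℝ) ^ 4 + 1 := by
        have : 0 ≤ x ^ 3 := by positivity
        nlinarith

theorem par_h6' (h : BM u k0 L m) :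
    4 * ((u ^ (10 * k0 + 5) : ℕ) : ℝ) ^ 2 * (DD ((u : ℝ) ^ (k0 - 2) / 2) 0 + 1) / m ^ 2 ≤ 1 := by
  obtain ⟨hU0, hM0, hm, -, -⟩ := basics h
  have h0 := par_h6 h.big
  have hU := h.big.U100
  obtain ⟨hD1, hD2⟩ := DDp1 h.big
  have h1 : ((u : ℝ) ^ (10 * k0 + 19)) ^ 2 ≤ m ^ 2 := pow_le_pow_left₀ (by positivity) h.lo 2
  rw [div_le_one (by positivity)] at h0 ⊢
  exact h0.trans h1

theorem par_h7' (h : BM u k0 L m) :
    ((u ^ (10 * k0 + 5) : ℕ) : ℝ) ^ 2 * Real.log (1 + ((u ^ (10 * k0 + 5) : ℕ) : ℝ)) ≤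
      m ^ 2 := by
  have hU := h.big.U100
  have h1 : ((u : ℝ) ^ (10 * k0 + 19)) ^ 2 ≤ m ^ 2 := pow_le_pow_left₀ (by positivity) h.lo 2
  exact (par_h7 h.big).trans h1

theorem par_h8' (h : BM u k0 L m) :
    (n4 u k0 m : ℝ) + 1 ≤ ((u : ℝ) ^ (k0 - 2) / 2) ^ (3 / 4 : ℝ) := by
  obtain ⟨hU, hl, hK, h1, h2⟩ := big_basic h.big
  obtain ⟨-, hn, -, -, -⟩ := n4_le h
  have hn' : (n4 u k0 m : ℝ) ≤ (u : ℝ) ^ 29 := by exact_mod_cast hn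
  have h3 : (u : ℝ) ^ 40 ≤ (u : ℝ) ^ (k0 - 2) / 2 := by
    refine le_trans ?_ (H_ge h.big)
    apply pow_le_pow_right₀ (by linarith)
    have := h.big.hk; have := h.big.hL; omega
  have h4 : ((u : ℝ) ^ 40) ^ (3 / 4 : ℝ) ≤ ((u : ℝ) ^ (k0 - 2) / 2) ^ (3 / 4 : ℝ) :=
    Real.rpow_le_rpow (by positivity) h3 (by norm_num)
  refine le_trans ?_ h4
  have h5 : ((u : ℝ) ^ 40) ^ (3 / 4 : ℝ) = (u : ℝ) ^ 30 := by
    rw [← Real.rpow_natCast, ← Real.rpow_mul (by linarith), ← Real.rpow_natCast]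
    norm_num
  rw [h5]
  have h6 : 1 ≤ (u : ℝ) ^ 29 := one_le_pow₀ (by linarith)
  calc (n4 u k0 m : ℝ) + 1 ≤ (u : ℝ) ^ 29 * 2 := by linarith
    _ ≤ (u : ℝ) ^ 29 * u := by
        refine mul_le_mul_of_nonneg_left (by linarith) (by positivity)
    _ = (u : ℝ) ^ 30 := by ring

theorem par_h9' (h : BM u k0 L m) :
    L * (217 + 8 * Real.log (n4 u k0 m)) ≤ Real.log ((u : ℝ) ^ (k0 - 2) / 2) / 2 := by
  obtain ⟨hU, hl, hK, h1, h2⟩ := big_basic h.big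
  obtain ⟨-, -, -, hn, -⟩ := n4_le h
  have hH := logH_ge h.big
  have hL : (5 : ℝ) ≤ L := by exact_mod_cast h.big.hL
  have h3 : 217 + 8 * Real.log (n4 u k0 m) ≤ 449 * Real.log u := by linarith
  have h4 : (L : ℝ) * (217 + 8 * Real.log (n4 u k0 m)) ≤ L * (449 * Real.log u) :=
    mul_le_mul_of_nonneg_left h3 (by linarith)
  have h5 : 0 ≤ (L : ℝ) * Real.log u := by positivity
  nlinarith

/-- the final inequality -/
theorem par_final' (h : BM u k0 L m) :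
    m ^ 2 * (80 * (L * ((L : ℝ) - 1) * Real.log u)) ≤ m ^ 2 / 2 * (((L : ℝ) - 1) *
        (Real.log ((u : ℝ) ^ (k0 - 2) / 2) / 4 - (217 + 8 * Real.log (n4 u k0 m)))) := by
  obtain ⟨hU, hl, hK, h1, h2⟩ := big_basic h.big
  obtain ⟨-, -, -, hn, -⟩ := n4_le h
  have hH := logH_ge h.big
  have hL : (5 : ℝ) ≤ L := by exact_mod_cast h.big.hL
  set G : ℝ := Real.log ((u : ℝ) ^ (k0 - 2) / 2) / 4 - (217 + 8 * Real.log (n4 u k0 m)) with hG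
  set l : ℝ := Real.log u with hldef
  have hG1 : 160 * L * l ≤ G := by
    have e1 : 217 + 8 * Real.log (n4 u k0 m) ≤ 449 * l := by linarith
    have e2 : 449 * l ≤ 90 * L * l := by nlinarith
    rw [hG]
    linarith
  have r0 : ((L : ℝ) - 1) * (160 * L * l) ≤ ((L : ℝ) - 1) * G :=
    mul_le_mul_of_nonneg_left hG1 (by linarith)
  have hm2 : 0 ≤ m ^ 2 := sq_nonneg m
  calc m ^ 2 * (80 * (L * ((L : ℝ) - 1) * l)) = m ^ 2 / 2 * (((L : ℝ) - 1) * (160 * L * l)) := by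
        ring
    _ ≤ m ^ 2 / 2 * (((L : ℝ) - 1) * G) := mul_le_mul_of_nonneg_left r0 (by positivity)

end Pool.Agent.Y356.EA
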